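import Mathlib

set_option autoImplicit false

universe u v

namespace Pool.Agent.Y717.Lv

open Polynomial Matrix

/-- The commutators of elements of `S`. -/
def comm {A : Type u} [Ring A] (S : Set A) : Set A := {y | ∃ a ∈ S, ∃ b ∈ S, y = a * b - b * a}

/-- Closed under products, and every element is a sum of commutators. -/
structure Perf {A : Type u} [Ring A] (S : AddSubgroup A) : Prop where
  mul : ∀ a ∈ S, ∀ b ∈ S, a * b ∈ S
  comm : ∀ a ∈ S, a ∈ AddSubgroup.closure (comm (S : Set A))

theorem perf_span {K : Type v} {A : Type u} [CommRing K] [Ring A] [Algebra K A] (G : Set A)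
    (hmul : ∀ a ∈ G, ∀ b ∈ G, a * b ∈ G)
    (hcomm : ∀ a ∈ G, a ∈ AddSubgroup.closure (comm G)) :
    Perf (Submodule.span K G).toAddSubgroup := by
  have hle : comm G ⊆ comm ((Submodule.span K G).toAddSubgroup : Set A) := by
    rintro y ⟨a, ha, b, hb, rfl⟩
    exact ⟨a, Submodule.subset_span ha, b, Submodule.subset_span hb, rfl⟩
  constructor
  · intro a ha b hb
    have ha' : a ∈ Submodule.span K G := ha
    have hb' : b ∈ Submodule.span K G := hb
    show a * b ∈ Submodule.span K G
    have h1 := Submodule.mul_mem_mul ha' hb'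
    rw [Submodule.span_mul_span] at h1
    refine Submodule.span_mono ?_ h1
    rintro _ ⟨x, hx, y, hy, rfl⟩
    exact hmul x hx y hy
  · have hsm : ∀ (c : K), ∀ y ∈ AddSubgroup.closure
        (comm ((Submodule.span K G).toAddSubgroup : Set A)),
        c • y ∈ AddSubgroup.closure (comm ((Submodule.span K G).toAddSubgroup : Set A)) := by
      intro c y hy
      induction hy using AddSubgroup.closure_induction with
      | mem y hy =>
        obtain ⟨a, ha, b, hb, rfl⟩ := hy
        refine AddSubgroup.subset_closure ⟨c • a, ?_, b, hb, ?_⟩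
        · exact Submodule.smul_mem _ c ha
        · rw [smul_sub, smul_mul_assoc, mul_smul_comm]
      | zero => rw [smul_zero]; exact AddSubgroup.zero_mem _
      | add x y _ _ h1 h2 => rw [smul_add]; exact AddSubgroup.add_mem _ h1 h2
      | neg x _ h => rw [smul_neg]; exact AddSubgroup.neg_mem _ h
    have key : ∀ a ∈ Submodule.span K G,
        a ∈ AddSubgroup.closure (comm ((Submodule.span K G).toAddSubgroup : Set A)) := by
      intro a ha
      induction ha using Submodule.span_induction with
      | mem x hx => exact AddSubgroup.closure_mono hle (hcomm x hx)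
      | zero => exact AddSubgroup.zero_mem _
      | add x y hx hy h1 h2 => exact AddSubgroup.add_mem _ h1 h2
      | smul c x hx h1 => exact hsm c x h1
    exact key

/-- `det (1 + t a)`. -/
noncomputable def D {C : Type u} [CommRing C] {n : ℕ} (a : Matrix (Fin n) (Fin n) C) : C[X] :=
  det (1 + (X : C[X]) • a.map Polynomial.C)

theorem det_congr {C : Type u} [CommRing C] {n : ℕ} (r : C) (P Q E : Matrix (Fin n) (Fin n) C)
    (h : P = Q + r • E) : r ∣ P.det - Q.det := by
  rw [← Ideal.mem_span_singleton, ← Ideal.Quotient.eq, RingHom.map_det, RingHom.map_det]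
  congr 1
  ext i j
  simp only [RingHom.mapMatrix_apply, Matrix.map_apply]
  rw [h, Ideal.Quotient.eq, Ideal.mem_span_singleton]
  simp

theorem D_comm {C : Type u} [CommRing C] {n : ℕ} (a b : Matrix (Fin n) (Fin n) C) :
    D (a * b) = D (b * a) := by
  unfold D
  rw [Matrix.map_mul, Matrix.map_mul, ← smul_mul_assoc, Matrix.det_one_add_mul_comm,
    mul_smul_comm]

theorem D_zero {C : Type u} [CommRing C] {n : ℕ} : D (0 : Matrix (Fin n) (Fin n) C) = 1 := by
  unfold D
  simp

theorem D_eval {C : Type u} [CommRing C] {n : ℕ} (a : Matrix (Fin n) (Fin n) C) (r : C) :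
    (D a).eval r = det (1 + r • a) := by
  unfold D
  rw [← coe_evalRingHom, RingHom.map_det]
  congr 1
  ext i j
  simp only [RingHom.mapMatrix_apply, Matrix.map_apply, Matrix.add_apply, Matrix.smul_apply,
    map_add, smul_eq_mul, coe_evalRingHom, eval_mul, eval_X, eval_C]
  congr 1
  rw [Matrix.one_apply, Matrix.one_apply]
  split_ifs <;> simp

theorem X_dvd_D {C : Type u} [CommRing C] {n : ℕ} (a : Matrix (Fin n) (Fin n) C) :
    X ∣ D a - 1 := by
  rw [X_dvd_iff, coeff_sub, coeff_zero_eq_eval_zero, D_eval]
  simp

end Pool.Agent.Y717.Lv
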