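import Pool.Agent.Y717.Lv.A

set_option autoImplicit false

universe u v

namespace Pool.Agent.Y717.Lv

open Polynomial Matrix

/-- Additivity of `det (1 + t a)` modulo `t ^ (j + 1)`. -/
theorem D_add {C : Type u} [CommRing C] {n : ℕ} {j : ℕ} (hj : 1 ≤ j)
    (a b : Matrix (Fin n) (Fin n) C) (T : AddSubgroup (Matrix (Fin n) (Fin n) C[X]))
    (hT : ∀ c ∈ T, X ^ j ∣ D c - 1)
    (hc : (∑ k ∈ Finset.range j, (-((X : C[X]) • (a + b).map Polynomial.C)) ^ k) *
      (a.map Polynomial.C * b.map Polynomial.C) ∈ T) :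
    X ^ (j + 1) ∣ D a * D b - D (a + b) := by
  set A : Matrix (Fin n) (Fin n) C[X] := a.map Polynomial.C with hA
  set B : Matrix (Fin n) (Fin n) C[X] := b.map Polynomial.C with hB
  have hM : (a + b).map Polynomial.C = A + B := by
    ext i k
    simp [hA, hB]
  rw [hM] at hc
  set y : Matrix (Fin n) (Fin n) C[X] := -((X : C[X]) • (A + B)) with hy
  set c := (∑ k ∈ Finset.range j, y ^ k) * (A * B) with hcdef
  have hgeo : (1 + (X : C[X]) • (A + B)) * ∑ k ∈ Finset.range j, y ^ k = 1 - y ^ j := by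
    have h := mul_neg_geom_sum y j
    rw [hy, sub_neg_eq_add, ← hy] at h
    exact h
  have hyj : y ^ j = (X : C[X]) ^ j • (-(A + B)) ^ j := by
    rw [hy, ← smul_neg, _root_.smul_pow]
  have e1 : (1 + (X : C[X]) • A) * (1 + (X : C[X]) • B) =
      (1 + (X : C[X]) • (A + B)) * (1 + ((X : C[X]) ^ 2) • c) +
        (X : C[X]) ^ (j + 1) • ((X : C[X]) • ((-(A + B)) ^ j * (A * B))) := by
    have e2 : (1 + (X : C[X]) • (A + B)) * (1 + ((X : C[X]) ^ 2) • c) =
        1 + (X : C[X]) • (A + B) + (X : C[X]) ^ 2 • ((1 - y ^ j) * (A * B)) := by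
      rw [mul_add, mul_one, mul_smul_comm, hcdef, ← mul_assoc, hgeo]
    rw [e2, hyj, sub_mul, one_mul, smul_mul_assoc, smul_sub, smul_smul, smul_smul]
    have e3 : (X : C[X]) ^ 2 * X ^ j = X ^ (j + 1) * X := by ring
    rw [e3]
    have e4 : (1 + (X : C[X]) • A) * (1 + (X : C[X]) • B) =
        1 + (X : C[X]) • (A + B) + (X : C[X]) ^ 2 • (A * B) := by
      rw [mul_add, mul_one, add_mul, one_mul, smul_mul_smul_comm, smul_add, pow_two]
      abel
    rw [e4]
    abel
  have e5 := det_congr _ _ _ _ e1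
  rw [det_mul, det_mul] at e5
  have e6 : det (1 + (X : C[X]) • (A + B)) = D (a + b) := by
    unfold D
    rw [hM]
  rw [e6, ← D_eval c] at e5
  have e7 : (X : C[X]) ^ (j + 1) ∣ (D c).eval ((X : C[X]) ^ 2) - 1 := by
    obtain ⟨q, hq⟩ := hT c hc
    have h : (D c - 1).eval ((X : C[X]) ^ 2) = (X ^ j * q).eval ((X : C[X]) ^ 2) := by rw [hq]
    rw [eval_sub, eval_one, eval_mul, eval_pow, eval_X, ← pow_mul] at h
    rw [h]
    exact Dvd.dvd.mul_right (pow_dvd_pow _ (by omega)) _
  have e8 : D a * D b - D (a + b) =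
      (D a * D b - D (a + b) * (D c).eval ((X : C[X]) ^ 2)) +
        D (a + b) * ((D c).eval ((X : C[X]) ^ 2) - 1) := by ring
  rw [e8]
  exact dvd_add e5 (Dvd.dvd.mul_left e7 _)

theorem coeff_of_dvd {C : Type u} [CommRing C] {j : ℕ} (hj : 1 ≤ j) (p q r : C[X])
    (hp : X ^ j ∣ p - 1) (hq : X ^ j ∣ q - 1) (h : X ^ (j + 1) ∣ p * q - r) :
    r.coeff j = p.coeff j + q.coeff j := by
  obtain ⟨s, hs⟩ := hp
  obtain ⟨t, ht⟩ := hq
  have h1 := (X_pow_dvd_iff.1 h) j (Nat.lt_succ_self j)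
  have e1 : p * q = (p - 1) + (q - 1) + 1 + (p - 1) * (q - 1) := by ring
  have e2 : ((p - 1) * (q - 1)).coeff j = 0 := by
    have : X ^ (j + j) ∣ (p - 1) * (q - 1) := by
      rw [pow_add]
      exact mul_dvd_mul ⟨s, hs⟩ ⟨t, ht⟩
    exact X_pow_dvd_iff.1 this j (by omega)
  have e3 : (1 : C[X]).coeff j = 0 := by
    rw [coeff_one, if_neg (by omega)]
  rw [e1, coeff_sub, coeff_add, coeff_add, coeff_add, e2, coeff_sub, coeff_sub, e3] at h1
  linear_combination -h1

/-- The induction step. -/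
theorem main_dvd {n : ℕ} (j : ℕ) : ∀ (C : Type u) [CommRing C]
    (S : AddSubgroup (Matrix (Fin n) (Fin n) C)), Perf S → ∀ a ∈ S, X ^ (j + 1) ∣ D a - 1 := by
  induction j with
  | zero => intro C _ S _ a _; simpa using X_dvd_D a
  | succ j ih =>
    intro C _ S hS a ha
    set G : Set (Matrix (Fin n) (Fin n) C[X]) :=
      (fun a : Matrix (Fin n) (Fin n) C => a.map Polynomial.C) '' (S : Set _) with hG
    let φ : Matrix (Fin n) (Fin n) C →+* Matrix (Fin n) (Fin n) C[X] :=
      (Polynomial.C : C →+* C[X]).mapMatrix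
    have hGmul : ∀ x ∈ G, ∀ y ∈ G, x * y ∈ G := by
      rintro _ ⟨x, hx, rfl⟩ _ ⟨y, hy, rfl⟩
      exact ⟨x * y, hS.mul x hx y hy, Matrix.map_mul⟩
    have hGcomm : ∀ x ∈ G, x ∈ AddSubgroup.closure (comm G) := by
      rintro _ ⟨x, hx, rfl⟩
      have h1 : φ x ∈ (AddSubgroup.closure (comm (S : Set _))).map φ.toAddMonoidHom :=
        ⟨x, hS.comm x hx, rfl⟩
      rw [AddMonoidHom.map_closure] at h1
      refine AddSubgroup.closure_mono ?_ h1
      rintro _ ⟨_, ⟨a, ha, b, hb, rfl⟩, rfl⟩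
      refine ⟨φ a, ⟨a, ha, rfl⟩, φ b, ⟨b, hb, rfl⟩, ?_⟩
      show φ (a * b - b * a) = _
      rw [map_sub, map_mul, map_mul]
    have hT := perf_span (K := C[X]) G hGmul hGcomm
    have hadd : ∀ a ∈ S, ∀ b ∈ S, (D (a + b)).coeff (j + 1) =
        (D a).coeff (j + 1) + (D b).coeff (j + 1) := by
      intro a ha b hb
      refine coeff_of_dvd (by omega) _ _ _ (ih C S hS a ha) (ih C S hS b hb) ?_
      refine D_add (by omega) a b _ (fun c hc => ih C[X] _ hT c hc) ?_
      show _ ∈ Submodule.span C[X] G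
      rw [Finset.sum_mul]
      refine Submodule.sum_mem _ (fun k _ => ?_)
      have h2 : ∀ k : ℕ, (a + b) ^ k * (a * b) ∈ S := by
        intro k
        induction k with
        | zero => rw [pow_zero, one_mul]; exact hS.mul a ha b hb
        | succ k ihk =>
          rw [pow_succ', mul_assoc]
          exact hS.mul _ (S.add_mem ha hb) _ ihk
      have h3 : (-((X : C[X]) • (a + b).map Polynomial.C)) ^ k *
          (a.map Polynomial.C * b.map Polynomial.C) =
          (-(X : C[X])) ^ k • ((a + b) ^ k * (a * b)).map Polynomial.C := by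
        rw [← neg_smul, _root_.smul_pow, smul_mul_assoc]
        congr 1
        show (φ (a + b)) ^ k * (φ a * φ b) = φ ((a + b) ^ k * (a * b))
        rw [map_mul, map_mul, map_pow]
      rw [h3]
      exact Submodule.smul_mem _ _ (Submodule.subset_span ⟨_, h2 k, rfl⟩)
    have hz : (D (0 : Matrix (Fin n) (Fin n) C)).coeff (j + 1) = 0 := by
      rw [D_zero, coeff_one, if_neg (by omega)]
    have key : ∀ x ∈ AddSubgroup.closure (comm (S : Set (Matrix (Fin n) (Fin n) C))),
        x ∈ S ∧ (D x).coeff (j + 1) = 0 := by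
      intro x hx
      induction hx using AddSubgroup.closure_induction with
      | mem x hx =>
        obtain ⟨a, ha, b, hb, rfl⟩ := hx
        have h1 := hS.mul a ha b hb
        have h2 := hS.mul b hb a ha
        refine ⟨S.sub_mem h1 h2, ?_⟩
        have h3 := hadd _ (S.sub_mem h1 h2) _ h2
        rw [sub_add_cancel, D_comm a b] at h3
        exact right_eq_add.mp h3
      | zero => exact ⟨S.zero_mem, hz⟩
      | add x y _ _ h1 h2 =>
        refine ⟨S.add_mem h1.1 h2.1, ?_⟩
        rw [hadd _ h1.1 _ h2.1, h1.2, h2.2, add_zero]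
      | neg x _ h =>
        refine ⟨S.neg_mem h.1, ?_⟩
        have h3 := hadd _ (S.neg_mem h.1) _ h.1
        rw [neg_add_cancel, hz, h.2, add_zero] at h3
        exact h3.symm
    have hfin := (key a (hS.comm a ha)).2
    rw [X_pow_dvd_iff]
    intro d hd
    rcases Nat.lt_succ_iff_lt_or_eq.1 hd with h | rfl
    · exact X_pow_dvd_iff.1 (ih C S hS a ha) d h
    · rw [coeff_sub, hfin, coeff_one, if_neg (by omega), sub_zero]

/-- `det (1 + t a) = 1`. -/
theorem D_eq_one {n : ℕ} {C : Type u} [CommRing C] {S : AddSubgroup (Matrix (Fin n) (Fin n) C)}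
    (hS : Perf S) {a : Matrix (Fin n) (Fin n) C} (ha : a ∈ S) : D a = 1 := by
  rw [← sub_eq_zero]
  ext d
  rw [coeff_zero]
  exact X_pow_dvd_iff.1 (main_dvd d C S hS a ha) d (Nat.lt_succ_self d)

theorem charpoly_eq {n : ℕ} {C : Type u} [CommRing C] {S : AddSubgroup (Matrix (Fin n) (Fin n) C)}
    (hS : Perf S) {a : Matrix (Fin n) (Fin n) C} (ha : a ∈ S) : a.charpoly = X ^ n := by
  nontriviality C
  have h1 : a.charpolyRev = 1 := by
    rw [← D_eq_one hS (S.neg_mem ha)]
    unfold Matrix.charpolyRev D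
    congr 1
    ext i j
    simp [sub_eq_add_neg]
  have h2 := Matrix.reverse_charpoly a
  rw [h1] at h2
  have hdeg : a.charpoly.natDegree = n := by
    rw [Matrix.charpoly_natDegree_eq_dim, Fintype.card_fin]
  ext m
  rw [coeff_X_pow]
  rcases lt_trichotomy m n with h | h | h
  · rw [if_neg h.ne]
    have h3 : (a.charpoly.reverse).coeff (n - m) = a.charpoly.coeff m := by
      rw [coeff_reverse, hdeg, revAt_le (Nat.sub_le n m), Nat.sub_sub_self h.le]
    rw [← h3, h2, coeff_one, if_neg (by omega)]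
  · rw [if_pos h, h]
    have := a.charpoly_monic
    rw [Monic, leadingCoeff, hdeg] at this
    exact this
  · rw [if_neg h.ne']
    exact coeff_eq_zero_of_natDegree_lt (by rw [hdeg]; exact h)

theorem pow_eq_zero' {n : ℕ} {C : Type u} [CommRing C]
    {S : AddSubgroup (Matrix (Fin n) (Fin n) C)}
    (hS : Perf S) {a : Matrix (Fin n) (Fin n) C} (ha : a ∈ S) : a ^ n = 0 := by
  have h := Matrix.aeval_self_charpoly a
  rw [charpoly_eq hS ha] at h
  simpa using h

end Pool.Agent.Y717.Lv
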