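import Pool.Agent.Y717.Lv.B

set_option autoImplicit false

universe u v

namespace Pool.Agent.Y717.Lv

open Matrix

/-- Evaluation at a vector. -/
def ev {K : Type u} [CommRing K] {n : ℕ} (v : Fin n → K) :
    Matrix (Fin n) (Fin n) K →ₗ[K] (Fin n → K) where
  toFun M := M *ᵥ v
  map_add' M N := Matrix.add_mulVec M N v
  map_smul' c M := Matrix.smul_mulVec c M v

theorem map_ev_eq_bot {K : Type u} [Field K] {n : ℕ} (A : Submodule K (Matrix (Fin n) (Fin n) K))
    (hmul : ∀ a ∈ A, ∀ b ∈ A, a * b ∈ A)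
    (hgen : ∀ a ∈ A, a ∈ AddSubgroup.closure {y | ∃ a ∈ A, ∃ b ∈ A, y = a * b - b * a})
    (hnil : ∀ a ∈ A, a ^ n = 0) (d : ℕ) : ∀ v : Fin n → K,
    Module.finrank K (A.map (ev v)) = d → A.map (ev v) = ⊥ := by
  induction d using Nat.strong_induction_on with
  | _ d ih =>
    intro v hv
    have hle : ∀ a ∈ A, A.map (ev (a *ᵥ v)) ≤ A.map (ev v) := by
      rintro a ha _ ⟨b, hb, rfl⟩
      refine ⟨b * a, hmul b hb a ha, ?_⟩
      show (b * a) *ᵥ v = b *ᵥ (a *ᵥ v)
      rw [Matrix.mulVec_mulVec]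
    have hbot : ∀ a ∈ A, A.map (ev (a *ᵥ v)) = ⊥ := by
      intro a ha
      rcases (hle a ha).lt_or_eq with h | h
      · exact ih _ (hv ▸ Submodule.finrank_lt_finrank_of_lt h) _ rfl
      · have h1 : a *ᵥ v ∈ A.map (ev (a *ᵥ v)) := by
          rw [h]
          exact ⟨a, ha, rfl⟩
        obtain ⟨b, hb, hb1⟩ := h1
        have hb2 : b *ᵥ (a *ᵥ v) = a *ᵥ v := hb1
        have h2 : ∀ k : ℕ, (b ^ k) *ᵥ (a *ᵥ v) = a *ᵥ v := by
          intro k
          induction k with
          | zero => rw [pow_zero, Matrix.one_mulVec]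
          | succ k ihk => rw [pow_succ, ← Matrix.mulVec_mulVec, hb2, ihk]
        have h3 := h2 n
        rw [hnil b hb, Matrix.zero_mulVec] at h3
        rw [← h3]
        rw [eq_bot_iff]
        rintro _ ⟨c, _, rfl⟩
        show c *ᵥ (0 : Fin n → K) ∈ _
        rw [Matrix.mulVec_zero]
        exact Submodule.zero_mem _
    have hprod : ∀ a ∈ A, ∀ b ∈ A, (a * b) *ᵥ v = 0 := by
      intro a ha b hb
      have h1 : (a * b) *ᵥ v ∈ A.map (ev (b *ᵥ v)) := ⟨a, ha, by
        show a *ᵥ (b *ᵥ v) = _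
        rw [Matrix.mulVec_mulVec]⟩
      rw [hbot b hb] at h1
      exact (Submodule.mem_bot K).1 h1
    rw [eq_bot_iff]
    rintro _ ⟨a, ha, rfl⟩
    rw [Submodule.mem_bot]
    show a *ᵥ v = 0
    have key : ∀ x ∈ AddSubgroup.closure {y | ∃ a ∈ A, ∃ b ∈ A, y = a * b - b * a},
        x *ᵥ v = 0 := by
      intro x hx
      induction hx using AddSubgroup.closure_induction with
      | mem y hy =>
        obtain ⟨b, hb, c, hc, rfl⟩ := hy
        rw [Matrix.sub_mulVec, hprod b hb c hc, hprod c hc b hb, sub_zero]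
      | zero => exact Matrix.zero_mulVec v
      | add x y _ _ h1 h2 => rw [Matrix.add_mulVec, h1, h2, add_zero]
      | neg x _ h => rw [Matrix.neg_mulVec, h, neg_zero]
    exact key a (hgen a ha)

/-- Over a field there are no perfect subrings of matrix rings. -/
theorem eq_zero_of_field {K : Type u} [Field K] {n : ℕ}
    {S : AddSubgroup (Matrix (Fin n) (Fin n) K)} (hS : Perf S) : ∀ a ∈ S, a = 0 := by
  intro a ha
  have hT := perf_span (K := K) (S : Set (Matrix (Fin n) (Fin n) K)) hS.mul hS.comm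
  set A := Submodule.span K (S : Set (Matrix (Fin n) (Fin n) K)) with hA
  have haA : a ∈ A := Submodule.subset_span ha
  have h1 : ∀ v : Fin n → K, A.map (ev v) = ⊥ := fun v =>
    map_ev_eq_bot A hT.mul hT.comm (fun a ha => pow_eq_zero' hT ha) _ v rfl
  apply Matrix.ext_of_mulVec_single
  intro i
  have h2 : a *ᵥ Pi.single i 1 ∈ A.map (ev (Pi.single i 1)) := ⟨a, haA, rfl⟩
  rw [h1] at h2
  rw [(Submodule.mem_bot K).1 h2, Matrix.zero_mulVec]

/-- The image of a perfect subring of a matrix ring under a ring homomorphism. -/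
theorem perf_map {C C' : Type u} [CommRing C] [CommRing C'] (g : C →+* C') {n : ℕ}
    {S : AddSubgroup (Matrix (Fin n) (Fin n) C)} (hS : Perf S) :
    Perf (S.map (g.mapMatrix : Matrix (Fin n) (Fin n) C →+* _).toAddMonoidHom) := by
  constructor
  · rintro _ ⟨a, ha, rfl⟩ _ ⟨b, hb, rfl⟩
    exact ⟨a * b, hS.mul a ha b hb, map_mul (g.mapMatrix : Matrix (Fin n) (Fin n) C →+* _) a b⟩
  · rintro _ ⟨a, ha, rfl⟩
    have h1 : (g.mapMatrix : Matrix (Fin n) (Fin n) C →+* _).toAddMonoidHom a ∈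
        (AddSubgroup.closure (comm (S : Set _))).map
          (g.mapMatrix : Matrix (Fin n) (Fin n) C →+* _).toAddMonoidHom := ⟨a, hS.comm a ha, rfl⟩
    rw [AddMonoidHom.map_closure] at h1
    refine AddSubgroup.closure_mono ?_ h1
    rintro _ ⟨_, ⟨x, hx, y, hy, rfl⟩, rfl⟩
    refine ⟨_, ⟨x, hx, rfl⟩, _, ⟨y, hy, rfl⟩, ?_⟩
    show (g.mapMatrix : Matrix (Fin n) (Fin n) C →+* _) (x * y - y * x) = _
    rw [map_sub, map_mul, map_mul]
    rfl

/-- The entries are nilpotent. -/
theorem entry_nilpotent {C : Type u} [CommRing C] {n : ℕ}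
    {S : AddSubgroup (Matrix (Fin n) (Fin n) C)} (hS : Perf S) {a : Matrix (Fin n) (Fin n) C}
    (ha : a ∈ S) (i j : Fin n) : IsNilpotent (a i j) := by
  rw [← mem_nilradical, nilradical_eq_sInf, Ideal.mem_sInf]
  intro P hP
  have hP' : P.IsPrime := hP
  let g : C →+* FractionRing (C ⧸ P) :=
    (algebraMap (C ⧸ P) (FractionRing (C ⧸ P))).comp (Ideal.Quotient.mk P)
  have h1 := eq_zero_of_field (perf_map g hS) _ (AddSubgroup.mem_map_of_mem _ ha)
  have h2 : g (a i j) = 0 := congrFun (congrFun h1 i) j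
  have h3 : algebraMap (C ⧸ P) (FractionRing (C ⧸ P)) (Ideal.Quotient.mk P (a i j)) = 0 := h2
  rw [FaithfulSMul.algebraMap_eq_zero_iff] at h3
  exact Ideal.Quotient.eq_zero_iff_mem.1 h3

/-- If the nilradical is nilpotent then there is nothing. -/
theorem eq_zero_of_nilpotent {C : Type u} [CommRing C] (hN : IsNilpotent (nilradical C)) {n : ℕ}
    {S : AddSubgroup (Matrix (Fin n) (Fin n) C)} (hS : Perf S) : ∀ a ∈ S, a = 0 := by
  obtain ⟨m, hm⟩ := hN
  have key : ∀ k : ℕ, ∀ a ∈ S, ∀ i j, a i j ∈ (nilradical C) ^ k := by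
    intro k
    induction k with
    | zero => intro a _ i j; rw [pow_zero, Ideal.one_eq_top]; exact Submodule.mem_top
    | succ k ih =>
      have h0 : ∀ a ∈ S, ∀ b ∈ S, ∀ i j, (a * b) i j ∈ (nilradical C) ^ (k + 1) := by
        intro a ha b hb i j
        rw [Matrix.mul_apply]
        refine Ideal.sum_mem _ (fun l _ => ?_)
        rw [pow_succ]
        exact Ideal.mul_mem_mul (ih a ha i l) (mem_nilradical.2 (entry_nilpotent hS hb l j))
      intro a ha
      have h1 := hS.comm a ha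
      have h2 : ∀ x ∈ AddSubgroup.closure (comm (S : Set (Matrix (Fin n) (Fin n) C))),
          ∀ i j, x i j ∈ (nilradical C) ^ (k + 1) := by
        intro x hx
        induction hx using AddSubgroup.closure_induction with
        | mem y hy =>
          obtain ⟨b, hb, c, hc, rfl⟩ := hy
          intro i j
          exact Ideal.sub_mem _ (h0 b hb c hc i j) (h0 c hc b hb i j)
        | zero => intro i j; exact Ideal.zero_mem _
        | add x y _ _ h1 h2 => intro i j; exact Ideal.add_mem _ (h1 i j) (h2 i j)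
        | neg x _ h => intro i j; exact neg_mem (h i j)
      exact h2 a h1
  intro a ha
  ext i j
  have h := key m a ha i j
  rw [hm] at h
  simpa using h

end Pool.Agent.Y717.Lv
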